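import Pool.Agent.J6H37.PU.Stm

/-!
# An integral solution of the linear program gives a schedule
-/

set_option autoImplicit false

namespace Pool.Agent.J6H37.PU

open Finset

namespace Bwd

/-! ### Schedules from families of pieces -/

theorem mk {m n : ℕ} {r p : ℕ → ℕ} {ι : Type} [Fintype ι] (job mach : ι → ℕ) (start stop : ι → ℝ)
    (hle : ∀ a, start a ≤ stop a) (hj : ∀ a, job a < n) (hm : ∀ a, mach a < m)
    (hr : ∀ a, start a < stop a → (r (job a) : ℝ) ≤ start a)
    (hd : ∀ a b, a ≠ b → start a < stop a → start b < stop b → job a = job b ∨ mach a = mach b →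
      stop a ≤ start b ∨ stop b ≤ start a)
    (ht : ∀ j < n, ∑ a with job a = j, (stop a - start a) = (p j : ℝ)) :
    ∃ S : Schedule, S.Valid m n r p ∧
      ∀ c : Fin S.N, ∃ a : ι, start a < stop a ∧ S.job c = job a ∧ S.stop c = stop a := by
  classical
  let κ := {a : ι // start a < stop a}
  let e : Fin (Fintype.card κ) ≃ κ := (Fintype.equivFin κ).symm
  refine ⟨⟨Fintype.card κ, fun c => job (e c).1, fun c => mach (e c).1, fun c => start (e c).1,
    fun c => stop (e c).1⟩, ⟨fun c => hj _, fun c => hm _, fun c => (e c).2,
      fun c => hr _ (e c).2, ?_, ?_⟩, fun c => ⟨(e c).1, (e c).2, rfl, rfl⟩⟩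
  · intro c c' hc h
    refine hd _ _ (fun h' => hc ?_) (e c).2 (e c').2 h
    exact e.injective (Subtype.ext h')
  · intro j hj
    rw [← ht j hj, sum_filter, sum_filter]
    show ∑ c, (if job (e c).1 = j then stop (e c).1 - start (e c).1 else 0) = _
    rw [e.sum_comp (fun k : κ => if job k.1 = j then stop k.1 - start k.1 else 0)]
    have h1 : ∑ k : κ, (if job k.1 = j then stop k.1 - start k.1 else 0) =
        ∑ a ∈ univ.filter (fun a => start a < stop a),
          (if job a = j then stop a - start a else 0) := by
      exact (Finset.sum_subtype (univ.filter (fun a => start a < stop a)) (fun a => by simp)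
        (fun a => if job a = j then stop a - start a else 0)).symm
    rw [h1]
    refine Finset.sum_subset (Finset.filter_subset _ _) fun a _ ha => ?_
    have h2 : ¬ start a < stop a := by simpa using ha
    have h3 : stop a - start a = 0 := by
      have := hle a
      linarith [le_antisymm this (not_lt.1 h2)]
    rw [h3]
    simp

/-! ### The wrap-around rule -/

/-- cut off -/
noncomputable def cl (L u : ℝ) : ℝ := max 0 (min L u)

theorem cl_nonneg (L u : ℝ) : 0 ≤ cl L u := le_max_left _ _

theorem cl_le {L : ℝ} (hL : 0 ≤ L) (u : ℝ) : cl L u ≤ L := max_le hL (min_le_left _ _)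

theorem cl_mono (L : ℝ) {u v : ℝ} (h : u ≤ v) : cl L u ≤ cl L v :=
  max_le_max le_rfl (min_le_min le_rfl h)

theorem cl_sum {L z : ℝ} (hL : 0 ≤ L) (hz : 0 ≤ z) (m : ℕ) :
    ∑ i ∈ range m, cl L (z - i * L) = min z (m * L) := by
  induction m with
  | zero => simp [hz]
  | succ m ih =>
    rw [sum_range_succ, ih]
    unfold cl
    push_cast
    rcases le_total z (m * L) with h | h
    · rw [min_eq_left h, min_eq_left (by nlinarith : z ≤ (m + 1) * L),
        min_eq_right (by linarith : z - m * L ≤ L), max_eq_left (by linarith)]
      ring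
    · rw [min_eq_right h]
      rcases le_total z ((m + 1) * L) with h' | h'
      · rw [min_eq_left h', min_eq_right (by linarith : z - m * L ≤ L),
          max_eq_right (by linarith)]
        ring
      · rw [min_eq_right h', min_eq_left (by linarith : L ≤ z - m * L), max_eq_right hL]
        ring

/-- the pieces of a job on two machines do not overlap -/
theorem cl_disj {L u v k : ℝ} (hL : 0 ≤ L) (huv : v ≤ u + L) (hk : 1 ≤ k)
    (h1 : cl L u < cl L v) (h2 : cl L (u - k * L) < cl L (v - k * L)) :
    cl L (v - k * L) ≤ cl L u := by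
  have h3 : 0 < v - k * L := by
    by_contra h
    have : cl L (v - k * L) ≤ 0 := max_le le_rfl ((min_le_right _ _).trans (not_lt.1 h))
    linarith [cl_nonneg L (u - k * L)]
  have h4 : u < L := by
    by_contra h
    have : L ≤ cl L u := le_max_of_le_right (le_min le_rfl (not_lt.1 h))
    linarith [cl_le hL v]
  have h5 : v - k * L ≤ u := by nlinarith
  calc cl L (v - k * L) ≤ v - k * L := max_le h3.le (min_le_right _ _)
    _ ≤ u := h5
    _ ≤ cl L u := le_max_of_le_right (le_min h4.le le_rfl)

/-- partial sums -/
noncomputable def ps (x : ℕ → ℝ) (j : ℕ) : ℝ := ∑ i ∈ range j, x i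

theorem ps_succ (x : ℕ → ℝ) (j : ℕ) : ps x (j + 1) = ps x j + x j := sum_range_succ _ _

theorem ps_mono {x : ℕ → ℝ} {n : ℕ} (hx : ∀ j < n, 0 ≤ x j) {i j : ℕ} (hij : i ≤ j) (hj : j ≤ n) :
    ps x i ≤ ps x j := by
  induction j, hij using Nat.le_induction with
  | base => exact le_rfl
  | succ j _ ih =>
    rw [ps_succ]
    have := hx j (by omega)
    linarith [ih (by omega)]

theorem ps_nonneg {x : ℕ → ℝ} {n : ℕ} (hx : ∀ j < n, 0 ≤ x j) {j : ℕ} (hj : j ≤ n) :
    0 ≤ ps x j := by
  have := ps_mono hx (Nat.zero_le j) hj
  simpa [ps] using this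

end Bwd

open Bwd in
/-- PU-BWD -/
theorem bwd : S_BWD := by
  intro m n T r p d w a b y x hm hI hP hy
  classical
  -- lengths
  set L : ℕ → ℝ := fun t => (b t - a t : ℝ) with hLdef
  have hL : ∀ t < T, 0 ≤ L t := fun t ht => by
    have : (a t : ℝ) ≤ b t := by exact_mod_cast hI.le t ht
    simp only [hLdef]
    linarith
  -- a late time
  set H : ℕ := (range T).sum b + (range n).sum r with hH
  have hHb : ∀ t < T, b t ≤ H := fun t ht =>
    (Finset.single_le_sum (f := b) (fun _ _ => Nat.zero_le _) (mem_range.2 ht)).trans
      (Nat.le_add_right _ _)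
  have hHr : ∀ j < n, r j ≤ H := fun j hj =>
    (Finset.single_le_sum (f := r) (fun _ _ => Nat.zero_le _) (mem_range.2 hj)).trans
      (Nat.le_add_left _ _)
  -- the rejected jobs
  set q : ℕ → ℝ := fun j => if y j = 0 then (p j : ℝ) else 0 with hq
  have hq0 : ∀ j < n, 0 ≤ q j := fun j _ => by
    simp only [hq]
    split_ifs <;> positivity
  have hx0 : ∀ t < T, ∀ j < n, 0 ≤ x j t := fun t ht j hj => hP.x0 j hj t ht
  -- the pieces
  let job : (Fin T × Fin n × Fin m) ⊕ Fin n → ℕ := Sum.elim (fun c => c.2.1) (fun j => j)
  let mach : (Fin T × Fin n × Fin m) ⊕ Fin n → ℕ := Sum.elim (fun c => c.2.2) (fun _ => 0)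
  let start : (Fin T × Fin n × Fin m) ⊕ Fin n → ℝ := Sum.elim
    (fun c => a c.1 + cl (L c.1) (ps (fun j => x j c.1) c.2.1 - c.2.2 * L c.1))
    (fun j => H + ps q j)
  let stop : (Fin T × Fin n × Fin m) ⊕ Fin n → ℝ := Sum.elim
    (fun c => a c.1 + cl (L c.1) (ps (fun j => x j c.1) (c.2.1 + 1) - c.2.2 * L c.1))
    (fun j => H + ps q (j + 1))
  -- nonempty pieces are in the windows
  have hwin : ∀ c : Fin T × Fin n × Fin m, start (Sum.inl c) < stop (Sum.inl c) →
      r c.2.1 ≤ a c.1 ∧ b c.1 ≤ d c.2.1 := by
    rintro ⟨t, j, i⟩ h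
    by_contra h'
    have h1 := hP.xN j j.2 t t.2 h'
    simp only [start, stop, Sum.elim_inl, ps_succ] at h
    rw [h1, add_zero] at h
    exact lt_irrefl _ h
  have hlo : ∀ c : Fin T × Fin n × Fin m, (a c.1 : ℝ) ≤ start (Sum.inl c) := fun c => by
    simp only [start, Sum.elim_inl]
    linarith [cl_nonneg (L c.1) (ps (fun j => x j c.1) c.2.1 - c.2.2 * L c.1)]
  have hhi : ∀ c : Fin T × Fin n × Fin m, stop (Sum.inl c) ≤ (b c.1 : ℝ) := fun c => by
    have h1 := cl_le (hL c.1 c.1.2) (ps (fun j => x j c.1) (c.2.1 + 1) - c.2.2 * L c.1)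
    have h2 : L c.1 = (b c.1 - a c.1 : ℝ) := rfl
    simp only [stop, Sum.elim_inl]
    linarith
  have hle : ∀ c, start c ≤ stop c := by
    rintro (⟨t, j, i⟩ | j)
    · simp only [start, stop, Sum.elim_inl, ps_succ]
      have := hx0 t t.2 j j.2
      have := cl_mono (L t) (u := ps (fun j => x j t) j - i * L t)
        (v := ps (fun j => x j t) j + x j t - i * L t) (by linarith)
      linarith
    · simp only [start, stop, Sum.elim_inr, ps_succ]
      linarith [hq0 j j.2]
  obtain ⟨S, hS, hS'⟩ := mk (m := m) (n := n) (r := r) (p := p) job mach start stop hle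
    (by
      rintro (⟨t, j, i⟩ | j)
      · exact j.2
      · exact j.2)
    (by
      rintro (⟨t, j, i⟩ | j)
      · exact i.2
      · exact hm)
    (by
      rintro (⟨t, j, i⟩ | j) h
      · have h1 := (hwin _ h).1
        have h2 : (r j : ℝ) ≤ a t := by exact_mod_cast h1
        exact h2.trans (hlo (t, j, i))
      · simp only [start, Sum.elim_inr]
        have h1 : (r j : ℝ) ≤ H := by exact_mod_cast hHr j j.2
        have h2 := ps_nonneg hq0 j.2.le
        exact (h1.trans (by linarith)))
    (by
      rintro (⟨t, j, i⟩ | j) (⟨t', j', i'⟩ | j') hne h h' hs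
      · by_cases htt : t = t'
        · subst htt
          have hmono : ∀ {u v : ℝ} (k : ℝ), u ≤ v → (a t : ℝ) + cl (L t) (u - k * L t) ≤
              a t + cl (L t) (v - k * L t) := by
            intro u v k huv
            linarith [cl_mono (L t) (sub_le_sub_right huv (k * L t))]
          simp only [job, mach, Sum.elim_inl, Fin.val_inj] at hs
          by_cases hjj : j = j'
          · subst hjj
            have hii : i ≠ i' := fun h => hne (by rw [h])
            -- the same job
            have key : ∀ i i' : Fin m, i < i' →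
                start (Sum.inl (t, j, i)) < stop (Sum.inl (t, j, i)) →
                start (Sum.inl (t, j, i')) < stop (Sum.inl (t, j, i')) →
                stop (Sum.inl (t, j, i')) ≤ start (Sum.inl (t, j, i)) := by
              intro i i' hii h h'
              simp only [start, stop, Sum.elim_inl] at h h' ⊢
              have e1 : ∀ z : ℝ, z - (i' : ℕ) * L t =
                  (z - (i : ℕ) * L t) - (((i' : ℕ) : ℝ) - (i : ℕ)) * L t := fun z => by ring
              rw [e1, e1 (ps _ _)] at h'
              rw [e1]
              have h3 : (1 : ℝ) ≤ ((i' : ℕ) : ℝ) - (i : ℕ) := by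
                have h4 : (i : ℕ) + 1 ≤ (i' : ℕ) := hii
                have h5 : (((i : ℕ) + 1 : ℕ) : ℝ) ≤ ((i' : ℕ) : ℝ) := by exact_mod_cast h4
                push_cast at h5
                linarith
              have h4 : ps (fun j => x j t) (j + 1) - (i : ℕ) * L t ≤
                  ps (fun j => x j t) j - (i : ℕ) * L t + L t := by
                rw [ps_succ]
                have h5 := hP.xL j j.2 t t.2
                have h6 := hP.y1 j j.2
                have h7 := hL t t.2
                have h8 : L t * y j ≤ L t * 1 := mul_le_mul_of_nonneg_left h6 h7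
                have h9 : x j t ≤ L t * y j := h5
                linarith
              linarith [cl_disj (hL t t.2) h4 h3 (by linarith) (by linarith)]
            rcases lt_or_gt_of_ne hii with h1 | h1
            · exact Or.inr (key i i' h1 h h')
            · exact Or.inl (key i' i h1 h' h)
          · have hii : i = i' := hs.resolve_left hjj
            subst hii
            rcases lt_or_gt_of_ne hjj with h1 | h1
            · left
              simp only [start, stop, Sum.elim_inl]
              exact hmono _ (ps_mono (hx0 t t.2) (Nat.succ_le_of_lt h1) j'.2.le)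
            · right
              simp only [start, stop, Sum.elim_inl]
              exact hmono _ (ps_mono (hx0 t t.2) (Nat.succ_le_of_lt h1) j.2.le)
        · rcases hI.disj t t.2 t' t'.2 (fun h => htt (Fin.ext h)) with h1 | h1
          · left
            have h2 : (b t : ℝ) ≤ a t' := by exact_mod_cast h1
            exact (hhi (t, j, i)).trans (h2.trans (hlo (t', j', i')))
          · right
            have h2 : (b t' : ℝ) ≤ a t := by exact_mod_cast h1
            exact (hhi (t', j', i')).trans (h2.trans (hlo (t, j, i)))
      · left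
        have h1 : (b t : ℝ) ≤ H := by exact_mod_cast hHb t t.2
        have h2 := ps_nonneg hq0 j'.2.le
        refine (hhi (t, j, i)).trans (h1.trans ?_)
        simp only [start, Sum.elim_inr]
        linarith
      · right
        have h1 : (b t' : ℝ) ≤ H := by exact_mod_cast hHb t' t'.2
        have h2 := ps_nonneg hq0 j.2.le
        refine (hhi (t', j', i')).trans (h1.trans ?_)
        simp only [start, Sum.elim_inr]
        linarith
      · have hjj : j ≠ j' := fun h => hne (by rw [h])
        rcases lt_or_gt_of_ne hjj with h1 | h1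
        · left
          simp only [start, stop, Sum.elim_inr]
          linarith [ps_mono hq0 (Nat.succ_le_of_lt h1) j'.2.le]
        · right
          simp only [start, stop, Sum.elim_inr]
          linarith [ps_mono hq0 (Nat.succ_le_of_lt h1) j.2.le])
    (by
      intro j hj
      rw [sum_filter, Fintype.sum_sum_type]
      have hB : ∑ j' : Fin n, (if job (Sum.inr j') = j then
          stop (Sum.inr j') - start (Sum.inr j') else 0) = q j := by
        rw [Finset.sum_eq_single (⟨j, hj⟩ : Fin n)]
        · simp only [job, start, stop, Sum.elim_inr, if_true, ps_succ]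
          ring
        · intro j' _ hj'
          rw [if_neg]
          intro h
          exact hj' (Fin.ext h)
        · intro h
          exact absurd (mem_univ _) h
      have hA : ∑ c : Fin T × Fin n × Fin m, (if job (Sum.inl c) = j then
          stop (Sum.inl c) - start (Sum.inl c) else 0) = p j * y j := by
        rw [← hP.tot j hj, ← Fin.sum_univ_eq_sum_range (fun t => x j t) T, Fintype.sum_prod_type]
        refine Finset.sum_congr rfl fun t _ => ?_
        rw [Fintype.sum_prod_type, Finset.sum_eq_single (⟨j, hj⟩ : Fin n)]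
        · simp only [job, start, stop, Sum.elim_inl, if_true]
          have h1 : ∀ z : ℝ, 0 ≤ z → z ≤ m * L t → ∑ i : Fin m, cl (L t) (z - (i : ℕ) * L t) = z := by
            intro z hz hz'
            rw [Fin.sum_univ_eq_sum_range (fun i => cl (L t) (z - (i : ℕ) * L t)) m,
              cl_sum (hL t t.2) hz, min_eq_left hz']
          have h2 : ∀ i ≤ n, ps (fun j => x j t) i ≤ m * L t := fun i hi =>
            (ps_mono (hx0 t t.2) hi le_rfl).trans (hP.cap t t.2)
          have h3 : ∀ i ≤ n, 0 ≤ ps (fun j => x j t) i := fun i hi => ps_nonneg (hx0 t t.2) hi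
          have h4 : ∀ i : Fin m,
              ((a t : ℝ) + cl (L t) (ps (fun j => x j t) (j + 1) - (i : ℕ) * L t) -
              (a t + cl (L t) (ps (fun j => x j t) j - (i : ℕ) * L t))) =
              cl (L t) (ps (fun j => x j t) (j + 1) - (i : ℕ) * L t) -
              cl (L t) (ps (fun j => x j t) j - (i : ℕ) * L t) := fun i => by ring
          rw [Finset.sum_congr rfl fun i _ => h4 i, Finset.sum_sub_distrib,
            h1 _ (h3 _ hj) (h2 _ hj), h1 _ (h3 _ hj.le) (h2 _ hj.le), ps_succ]
          ring
        · intro j' _ hj'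
          refine Finset.sum_eq_zero fun i _ => ?_
          rw [if_neg]
          intro h
          exact hj' (Fin.ext h)
        · intro h
          exact absurd (mem_univ _) h
      rw [hA, hB]
      rcases hy j hj with h | h
      · simp [hq, h]
      · simp [hq, h])
  refine ⟨S, hS, ?_⟩
  unfold Schedule.lateWeight
  push_cast
  refine Finset.sum_le_sum fun j hj => ?_
  rw [mem_range] at hj
  split_ifs with hlate
  · obtain ⟨c, hc, hc'⟩ := hlate
    obtain ⟨e, he, he1, he2⟩ := hS' c
    rcases e with ⟨t, j', i⟩ | j'
    · exfalso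
      have h1 : (j' : ℕ) = j := he1.symm.trans hc
      have h2 := (hwin _ he).2
      have h3 : (b t : ℝ) ≤ d j := by
        rw [← h1]
        exact_mod_cast h2
      rw [he2] at hc'
      linarith [hhi (t, j', i)]
    · have h1 : (j' : ℕ) = j := he1.symm.trans hc
      simp only [start, stop, Sum.elim_inr, ps_succ, h1] at he
      have h2 : q j ≠ 0 := by
        intro h
        rw [h] at he
        simp at he
      have h3 : y j = 0 := by
        by_contra h
        apply h2
        simp only [hq]
        rw [if_neg h]
      rw [h3]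
      simp
  · have := hP.y1 j hj
    have h2 : (0 : ℝ) ≤ w j := by positivity
    nlinarith

end Pool.Agent.J6H37.PU
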