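import Pool.Agent.H633R2.FptDefs

/-!
# `P | pmtn | ∑ U_j` and mixed integer linear programs: definitions

Preemptive scheduling of jobs with release dates, due dates and weights on identical parallel
machines. Jobs and machines are numbered `0, 1, 2, ...`.
-/

set_option autoImplicit false

namespace Pool.Agent.J6H37.PU

open Finset Pool.Agent.NPC

/-- A preemptive schedule with finitely many pieces: in the piece `a` the machine `mach a` processes
the job `job a` during the time interval `[start a, stop a)`. -/
structure Schedule where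
  /-- the number of pieces -/
  N : ℕ
  /-- the job -/
  job : Fin N → ℕ
  /-- the machine -/
  mach : Fin N → ℕ
  /-- the start -/
  start : Fin N → ℝ
  /-- the end -/
  stop : Fin N → ℝ

/-- `S` is a feasible preemptive schedule of `n` jobs with release dates `r` and processing times `p`
on `m` machines: no job runs before its release date, no machine processes two jobs at the same
time, no job is processed by two machines at the same time (two pieces which overlap in time belong
to different jobs and to different machines), and job `j` is processed for `p j` units of time in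
total. -/
structure Schedule.Valid (S : Schedule) (m n : ℕ) (r p : ℕ → ℕ) : Prop where
  job_lt : ∀ a, S.job a < n
  mach_lt : ∀ a, S.mach a < m
  pos : ∀ a, S.start a < S.stop a
  release : ∀ a, (r (S.job a) : ℝ) ≤ S.start a
  disjoint : ∀ a b, a ≠ b → S.job a = S.job b ∨ S.mach a = S.mach b →
    S.stop a ≤ S.start b ∨ S.stop b ≤ S.start a
  total : ∀ j < n, ∑ a with S.job a = j, (S.stop a - S.start a) = (p j : ℝ)

/-- The job `j` is late: some piece of it ends after `d j`, i.e. its completion time is larger than
its due date. -/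
def Schedule.Late (S : Schedule) (d : ℕ → ℕ) (j : ℕ) : Prop :=
  ∃ a, S.job a = j ∧ (d j : ℝ) < S.stop a

open Classical in
/-- The total weight `∑ w_j U_j` of the late jobs. -/
noncomputable def Schedule.lateWeight (S : Schedule) (n : ℕ) (d w : ℕ → ℕ) : ℕ :=
  ∑ j ∈ range n, if S.Late d j then w j else 0

/-! ### the linear program -/

/-- The values `y j` and `x j t` are a solution of the linear program: `y j` is the fraction of the
job `j` which is accepted, `x j t` the amount of it which is processed in the time interval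
`[a t, b t)`, `t < T`, if this interval is in the window `[r j, d j)` of the job. -/
structure LP (m n T : ℕ) (r p d : ℕ → ℕ) (a b : ℕ → ℕ) (y : ℕ → ℝ) (x : ℕ → ℕ → ℝ) : Prop where
  y0 : ∀ j < n, 0 ≤ y j
  y1 : ∀ j < n, y j ≤ 1
  x0 : ∀ j < n, ∀ t < T, 0 ≤ x j t
  xL : ∀ j < n, ∀ t < T, x j t ≤ (b t - a t : ℝ) * y j
  xN : ∀ j < n, ∀ t < T, ¬ (r j ≤ a t ∧ b t ≤ d j) → x j t = 0
  tot : ∀ j < n, ∑ t ∈ range T, x j t = p j * y j
  cap : ∀ t < T, ∑ j ∈ range n, x j t ≤ m * (b t - a t : ℝ)

/-- The time intervals `[a t, b t)`, `t < T`, do not overlap and cover the windows of the jobs. -/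
structure Ivl (n T : ℕ) (r d : ℕ → ℕ) (a b : ℕ → ℕ) : Prop where
  le : ∀ t < T, a t ≤ b t
  disj : ∀ s < T, ∀ t < T, s ≠ t → b s ≤ a t ∨ b t ≤ a s
  cover : ∀ j < n, ∀ τ : ℝ, (r j : ℝ) ≤ τ → τ < d j → ∃ t < T, r j ≤ a t ∧ b t ≤ d j ∧
    (a t : ℝ) ≤ τ ∧ τ < b t

/-! ### the instances -/

/-- A job: release date, processing time, weight; due date. -/
abbrev Job := (ℕ × ℕ × ℕ) × ℕ

/-- The job number `j` of the list. -/
def jb (l : List Job) (j : ℕ) : Job := l.getD j ((0, 0, 0), 0)

/-- The decision version of `P | pmtn, r_j | ∑ w_j U_j`: an instance `((m, l), B)` has the number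
`m ≥ 1` of machines, the list `l` of the jobs and a bound `B`; is there a preemptive schedule with
`∑ w_j U_j ≤ B`? -/
def WTardy (I : (ℕ × List Job) × ℕ) : Prop :=
  1 ≤ I.1.1 ∧ ∃ S : Schedule, S.Valid I.1.1 I.1.2.length (fun j => (jb I.1.2 j).1.1)
      (fun j => (jb I.1.2 j).1.2.1) ∧
    S.lateWeight I.1.2.length (fun j => (jb I.1.2 j).2) (fun j => (jb I.1.2 j).1.2.2) ≤ I.2

/-- The number of distinct triples (release date, processing time, weight) of the jobs. -/
def types (I : (ℕ × List Job) × ℕ) : ℕ := (I.1.2.map Prod.fst).toFinset.card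

/-- The job number `j` of a list of pairs (processing time, due date). -/
def pj (l : List (ℕ × ℕ)) (j : ℕ) : ℕ × ℕ := l.getD j (0, 0)

/-- The decision version of `P | pmtn | ∑ U_j`: an instance `((m, l), B)` has the number
`m ≥ 1` of machines, the list `l` of the jobs (processing time, due date) and a bound `B`; is there a
preemptive schedule with at most `B` late jobs? -/
def Tardy (I : (ℕ × List (ℕ × ℕ)) × ℕ) : Prop :=
  1 ≤ I.1.1 ∧ ∃ S : Schedule, S.Valid I.1.1 I.1.2.length (fun _ => 0) (fun j => (pj I.1.2 j).1) ∧
    S.lateWeight I.1.2.length (fun j => (pj I.1.2 j).2) (fun _ => 1) ≤ I.2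

/-- The number of distinct processing times of the jobs. -/
def pbar (I : (ℕ × List (ℕ × ℕ)) × ℕ) : ℕ := (I.1.2.map Prod.fst).toFinset.card

/-- Mixed integer linear programming (feasibility): an instance `(ints, rows)` has real variables
`v_0, v_1, v_2, ...`; those with an index in the list `ints` must be integers. Each row, a list of
pairs `(i, c)` and a number `b`, is the inequality `∑ c v_i ≤ b`. -/
def Milp (I : List ℕ × List (List (ℕ × ℤ) × ℤ)) : Prop :=
  ∃ v : ℕ → ℝ, (∀ i ∈ I.1, ∃ k : ℤ, v i = k) ∧
    ∀ row ∈ I.2, (row.1.map fun t => (t.2 : ℝ) * v t.1).sum ≤ row.2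

/-- The number of the integer variables. -/
def ints (I : List ℕ × List (List (ℕ × ℤ) × ℤ)) : ℕ := I.1.length

end Pool.Agent.J6H37.PU
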