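import Pool.Agent.J6H37.PU.Stm

/-!
# The exchange argument
-/

set_option autoImplicit false

namespace Pool.Agent.J6H37.PU

open Finset

namespace Exch

/-- Move `c` from `i` to `j`. -/
noncomputable def mv (i j : ℕ) (c : ℝ) (f : ℕ → ℝ) (k : ℕ) : ℝ :=
  f k + (if k = j then c else 0) - (if k = i then c else 0)

theorem sum_mv (s : Finset ℕ) (i j : ℕ) (c : ℝ) (f w : ℕ → ℝ) (hs : i ∈ s ↔ j ∈ s)
    (hw : w i = w j) : ∑ k ∈ s, w k * mv i j c f k = ∑ k ∈ s, w k * f k := by
  simp only [mv, mul_sub, mul_add, mul_ite, mul_zero, Finset.sum_sub_distrib,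
    Finset.sum_add_distrib, Finset.sum_ite_eq']
  by_cases h : i ∈ s
  · simp [h, hs.mp h, hw]
  · have h' : j ∉ s := fun h'' => h (hs.mpr h'')
    simp [h, h']

theorem sum_mv' (s : Finset ℕ) (i j : ℕ) (c : ℝ) (f : ℕ → ℝ) (hs : i ∈ s ↔ j ∈ s) :
    ∑ k ∈ s, mv i j c f k = ∑ k ∈ s, f k := by
  have := sum_mv s i j c f (fun _ => 1) hs rfl
  simpa using this

theorem mv_i {i j : ℕ} (hij : i ≠ j) (c : ℝ) (f : ℕ → ℝ) : mv i j c f i = f i - c := by
  simp [mv, hij]

theorem mv_j {i j : ℕ} (hij : i ≠ j) (c : ℝ) (f : ℕ → ℝ) : mv i j c f j = f j + c := by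
  simp [mv, hij.symm]

theorem mv_k {i j k : ℕ} (h1 : k ≠ i) (h2 : k ≠ j) (c : ℝ) (f : ℕ → ℝ) : mv i j c f k = f k := by
  simp [mv, h1, h2]

theorem step {m n T : ℕ} {r p d w a b : ℕ → ℕ} {ty : ℕ → ℕ × ℕ × ℕ}
    {y : ℕ → ℝ} {x : ℕ → ℕ → ℝ} (hty : ∀ j < n, ty j = (r j, p j, w j))
    (h : LP m n T r p d a b y x) {i j : ℕ} (hi : i < n) (hj : j < n) (hij : i ≠ j)
    (htt : ty i = ty j) (hd : d i ≤ d j) (i0 : 0 < y i) (i1 : y i < 1) (j0 : 0 < y j)
    (j1 : y j < 1) :
    ∃ (y' : ℕ → ℝ) (x' : ℕ → ℕ → ℝ), LP m n T r p d a b y' x' ∧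
      (∀ l < n, ∑ k ∈ (range n).filter (fun k => ty k = ty l), y' k =
        ∑ k ∈ (range n).filter (fun k => ty k = ty l), y k) ∧
      ∑ k ∈ range n, (w k : ℝ) * (1 - y' k) = ∑ k ∈ range n, (w k : ℝ) * (1 - y k) ∧
      (∀ k, k ≠ i → k ≠ j → y' k = y k) ∧ (y' i = 0 ∨ y' j = 1) := by
  have hyp := hty i hi
  rw [htt, hty j hj] at hyp
  have hr : r i = r j := (congrArg Prod.fst hyp).symm
  have hp : p i = p j := (congrArg (fun z => z.2.1) hyp).symm
  have hw : w i = w j := (congrArg (fun z => z.2.2) hyp).symm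
  obtain ⟨e, he⟩ : ∃ e, e = min (y i) (1 - y j) := ⟨_, rfl⟩
  have e0 : 0 < e := by rw [he]; exact lt_min i0 (by linarith)
  have e1 : e ≤ y i := by rw [he]; exact min_le_left _ _
  have e2 : e ≤ 1 - y j := by rw [he]; exact min_le_right _ _
  obtain ⟨ρ, hρ⟩ : ∃ ρ, ρ = e / y i := ⟨_, rfl⟩
  have hρe : y i * ρ = e := by rw [hρ]; field_simp
  have ρ0 : 0 ≤ ρ := by rw [hρ]; positivity
  have ρ1 : ρ ≤ 1 := by rw [hρ, div_le_one i0]; exact e1
  have hmem : ∀ l, i ∈ (range n).filter (fun k => ty k = ty l) ↔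
      j ∈ (range n).filter (fun k => ty k = ty l) := by
    intro l
    simp only [Finset.mem_filter, Finset.mem_range, hi, hj, true_and, htt]
  have hmem' : i ∈ range n ↔ j ∈ range n := by simp [hi, hj]
  have cases3 : ∀ (P : ℕ → Prop), P i → P j → (∀ k < n, k ≠ i → k ≠ j → P k) → ∀ k < n, P k := by
    intro P hPi hPj hPk k hk
    by_cases h1 : k = i
    · rw [h1]; exact hPi
    by_cases h2 : k = j
    · rw [h2]; exact hPj
    exact hPk k hk h1 h2
  refine ⟨mv i j e y, fun k t => mv i j (x i t * ρ) (fun k => x k t) k, ?_, ?_, ?_, ?_, ?_⟩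
  · refine ⟨?_, ?_, ?_, ?_, ?_, ?_, ?_⟩
    · refine cases3 _ ?_ ?_ ?_
      · rw [mv_i hij]; linarith
      · rw [mv_j hij]; linarith
      · intro k hk h1 h2; rw [mv_k h1 h2]; exact h.y0 k hk
    · refine cases3 _ ?_ ?_ ?_
      · rw [mv_i hij]; linarith
      · rw [mv_j hij]; linarith
      · intro k hk h1 h2; rw [mv_k h1 h2]; exact h.y1 k hk
    · refine cases3 _ ?_ ?_ ?_
      · intro t ht
        show 0 ≤ mv i j (x i t * ρ) (fun k => x k t) i
        rw [mv_i hij]
        have := h.x0 i hi t ht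
        nlinarith
      · intro t ht
        show 0 ≤ mv i j (x i t * ρ) (fun k => x k t) j
        rw [mv_j hij]
        have h1 := h.x0 i hi t ht
        have h2 := h.x0 j hj t ht
        have h3 := mul_nonneg h1 ρ0
        show 0 ≤ x j t + x i t * ρ
        linarith
      · intro k hk h1 h2 t ht
        show 0 ≤ mv i j (x i t * ρ) (fun k => x k t) k
        rw [mv_k h1 h2]
        exact h.x0 k hk t ht
    · refine cases3 _ ?_ ?_ ?_
      · intro t ht
        show mv i j (x i t * ρ) (fun k => x k t) i ≤ (b t - a t : ℝ) * mv i j e y i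
        rw [mv_i hij, mv_i hij]
        have h1 := mul_le_mul_of_nonneg_right (h.xL i hi t ht) (sub_nonneg.mpr ρ1)
        have h2 : (b t - a t : ℝ) * (y i - e) = (b t - a t : ℝ) * y i * (1 - ρ) := by
          rw [← hρe]; ring
        rw [h2]
        refine le_trans (le_of_eq ?_) h1
        ring
      · intro t ht
        show mv i j (x i t * ρ) (fun k => x k t) j ≤ (b t - a t : ℝ) * mv i j e y j
        rw [mv_j hij, mv_j hij]
        have h1 := mul_le_mul_of_nonneg_right (h.xL i hi t ht) ρ0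
        have h2 := h.xL j hj t ht
        have h3 : (b t - a t : ℝ) * (y j + e) = (b t - a t : ℝ) * y j +
            (b t - a t : ℝ) * y i * ρ := by
          rw [← hρe]; ring
        rw [h3]
        show x j t + x i t * ρ ≤ _
        linarith
      · intro k hk h1 h2 t ht
        show mv i j (x i t * ρ) (fun k => x k t) k ≤ (b t - a t : ℝ) * mv i j e y k
        rw [mv_k h1 h2, mv_k h1 h2]
        exact h.xL k hk t ht
    · refine cases3 _ ?_ ?_ ?_
      · intro t ht hn
        show mv i j (x i t * ρ) (fun k => x k t) i = 0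
        rw [mv_i hij]
        have h1 := h.xN i hi t ht hn
        show x i t - x i t * ρ = 0
        rw [h1]; ring
      · intro t ht hn
        show mv i j (x i t * ρ) (fun k => x k t) j = 0
        rw [mv_j hij]
        have h1 := h.xN i hi t ht (fun hh => hn ⟨hr ▸ hh.1, hh.2.trans hd⟩)
        have h2 := h.xN j hj t ht hn
        show x j t + x i t * ρ = 0
        rw [h1, h2]; ring
      · intro k hk h1 h2 t ht hn
        show mv i j (x i t * ρ) (fun k => x k t) k = 0
        rw [mv_k h1 h2]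
        exact h.xN k hk t ht hn
    · refine cases3 _ ?_ ?_ ?_
      · have h1 : ∀ t, mv i j (x i t * ρ) (fun k => x k t) i = x i t - x i t * ρ :=
          fun t => mv_i hij _ _
        simp only [h1]
        rw [Finset.sum_sub_distrib, ← Finset.sum_mul, h.tot i hi, mv_i hij, ← hρe]
        ring
      · have h1 : ∀ t, mv i j (x i t * ρ) (fun k => x k t) j = x j t + x i t * ρ :=
          fun t => mv_j hij _ _
        simp only [h1]
        rw [Finset.sum_add_distrib, ← Finset.sum_mul, h.tot i hi, h.tot j hj, mv_j hij, ← hρe, hp]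
        ring
      · intro k hk h1 h2
        have h3 : ∀ t, mv i j (x i t * ρ) (fun k => x k t) k = x k t := fun t => mv_k h1 h2 _ _
        simp only [h3]
        rw [mv_k h1 h2]
        exact h.tot k hk
    · intro t ht
      show ∑ k ∈ range n, mv i j (x i t * ρ) (fun k => x k t) k ≤ _
      rw [sum_mv' _ _ _ _ _ hmem']
      exact h.cap t ht
  · intro l hl
    exact sum_mv' _ _ _ _ _ (hmem l)
  · have h1 := sum_mv (range n) i j e y (fun k => (w k : ℝ)) hmem' (by rw [hw])
    simp only [mul_sub, Finset.sum_sub_distrib]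
    rw [h1]
  · intro k h1 h2
    exact mv_k h1 h2 _ _
  · rcases min_choice (y i) (1 - y j) with h1 | h1
    · left; rw [mv_i hij, he, h1]; ring
    · right; rw [mv_j hij, he, h1]; ring

/-- A second fractional value of the same type. -/
theorem second {n : ℕ} {ty : ℕ → ℕ × ℕ × ℕ} {y : ℕ → ℝ} {i : ℕ} (hi : i < n)
    (h0 : 0 < y i) (h1 : y i < 1)
    (hint : ∃ k : ℤ, ∑ j ∈ (range n).filter (fun j => ty j = ty i), y j = k) :
    ∃ j < n, j ≠ i ∧ ty j = ty i ∧ ¬ (y j = 0 ∨ y j = 1) := by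
  by_contra hcon
  push Not at hcon
  obtain ⟨k, hk⟩ := hint
  have hmem : i ∈ (range n).filter (fun j => ty j = ty i) := by simp [hi]
  rw [← Finset.add_sum_erase _ _ hmem] at hk
  have hz : ∃ z : ℤ, ∑ j ∈ ((range n).filter (fun j => ty j = ty i)).erase i, y j = z := by
    have hz' : ∀ j ∈ ((range n).filter (fun j => ty j = ty i)).erase i, ∃ z : ℤ, y j = z := by
      intro j hj
      rw [Finset.mem_erase, Finset.mem_filter, Finset.mem_range] at hj
      rcases hcon j hj.2.1 hj.1 hj.2.2 with h | h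
      · exact ⟨0, by simp [h]⟩
      · exact ⟨1, by simp [h]⟩
    choose! g hg using hz'
    refine ⟨∑ j ∈ ((range n).filter (fun j => ty j = ty i)).erase i, g j, ?_⟩
    rw [Int.cast_sum]
    exact Finset.sum_congr rfl hg
  obtain ⟨z, hz⟩ := hz
  rw [hz] at hk
  have h2 : y i = ((k - z : ℤ) : ℝ) := by push_cast; linarith
  rw [h2] at h0 h1
  have h3 : (0 : ℤ) < k - z := by exact_mod_cast h0
  have h4 : k - z < (1 : ℤ) := by exact_mod_cast h1
  omega

open Classical in
/-- The fractional values. -/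
noncomputable def fr (n : ℕ) (y : ℕ → ℝ) : Finset ℕ :=
  (range n).filter fun k => ¬ (y k = 0 ∨ y k = 1)

theorem main (c : ℕ) : ∀ (m n T : ℕ) (r p d w a b : ℕ → ℕ) (ty : ℕ → ℕ × ℕ × ℕ)
    (y : ℕ → ℝ) (x : ℕ → ℕ → ℝ), (fr n y).card ≤ c →
  (∀ j < n, ty j = (r j, p j, w j)) → LP m n T r p d a b y x →
  (∀ i < n, ∃ k : ℤ, ∑ j ∈ (range n).filter (fun j => ty j = ty i), y j = k) →
  ∃ (y' : ℕ → ℝ) (x' : ℕ → ℕ → ℝ), LP m n T r p d a b y' x' ∧ (∀ j < n, y' j = 0 ∨ y' j = 1) ∧
    ∑ j ∈ range n, (w j : ℝ) * (1 - y' j) = ∑ j ∈ range n, (w j : ℝ) * (1 - y j) := by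
  classical
  induction c with
  | zero =>
    intro m n T r p d w a b ty y x hc hty h hint
    refine ⟨y, x, h, ?_, rfl⟩
    intro j hj
    by_contra hcon
    have : j ∈ fr n y := by
      rw [fr, Finset.mem_filter]; exact ⟨Finset.mem_range.mpr hj, hcon⟩
    have := Finset.card_pos.mpr ⟨j, this⟩
    omega
  | succ c ih =>
    intro m n T r p d w a b ty y x hc hty h hint
    by_cases hall : ∀ j < n, y j = 0 ∨ y j = 1
    · exact ⟨y, x, h, hall, rfl⟩
    push Not at hall
    obtain ⟨i, hi, hi0, hi1⟩ := hall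
    have i0 : 0 < y i := lt_of_le_of_ne (h.y0 i hi) (Ne.symm hi0)
    have i1 : y i < 1 := lt_of_le_of_ne (h.y1 i hi) hi1
    obtain ⟨j, hj, hji, htj, hjf⟩ := second hi i0 i1 (hint i hi)
    push Not at hjf
    have j0 : 0 < y j := lt_of_le_of_ne (h.y0 j hj) (Ne.symm hjf.1)
    have j1 : y j < 1 := lt_of_le_of_ne (h.y1 j hj) hjf.2
    -- the pair in the right order
    obtain ⟨i', j', hi', hj', hij', htt', hd', i0', i1', j0', j1'⟩ :
        ∃ i' j', i' < n ∧ j' < n ∧ i' ≠ j' ∧ ty i' = ty j' ∧ d i' ≤ d j' ∧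
          0 < y i' ∧ y i' < 1 ∧ 0 < y j' ∧ y j' < 1 := by
      rcases le_total (d i) (d j) with hd | hd
      · exact ⟨i, j, hi, hj, hji.symm, htj.symm, hd, i0, i1, j0, j1⟩
      · exact ⟨j, i, hj, hi, hji, htj, hd, j0, j1, i0, i1⟩
    obtain ⟨y', x', hLP, hsum, hws, hk, h01⟩ :=
      step hty h hi' hj' hij' htt' hd' i0' i1' j0' j1'
    have hmi : i' ∈ fr n y := by
      rw [fr, Finset.mem_filter]
      exact ⟨Finset.mem_range.mpr hi', by rintro (h | h) <;> linarith⟩
    have hmj : j' ∈ fr n y := by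
      rw [fr, Finset.mem_filter]
      exact ⟨Finset.mem_range.mpr hj', by rintro (h | h) <;> linarith⟩
    have hsub : fr n y' ⊆ fr n y := by
      intro k hk'
      by_cases h1 : k = i'
      · rw [h1]; exact hmi
      by_cases h2 : k = j'
      · rw [h2]; exact hmj
      rw [fr, Finset.mem_filter] at hk' ⊢
      rw [hk k h1 h2] at hk'
      exact hk'
    have hcard : (fr n y').card < (fr n y).card := by
      refine Finset.card_lt_card (Finset.ssubset_iff_subset_ne.mpr ⟨hsub, ?_⟩)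
      intro heq
      rcases h01 with h | h
      · have : i' ∈ fr n y' := by rw [heq]; exact hmi
        rw [fr, Finset.mem_filter] at this
        exact this.2 (Or.inl h)
      · have : j' ∈ fr n y' := by rw [heq]; exact hmj
        rw [fr, Finset.mem_filter] at this
        exact this.2 (Or.inr h)
    obtain ⟨y'', x'', hLP'', h01'', hws''⟩ := ih m n T r p d w a b ty y' x' (by omega) hty hLP
      (fun i hi => by
        obtain ⟨k, hk⟩ := hint i hi
        exact ⟨k, by rw [hsum i hi]; exact hk⟩)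
    exact ⟨y'', x'', hLP'', h01'', hws''.trans hws⟩

end Exch

theorem exch : S_EXCH := by
  intro m n T r p d w a b ty y x hty h hint
  exact Exch.main _ m n T r p d w a b ty y x le_rfl hty h hint

end Pool.Agent.J6H37.PU
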