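import Pool.Agent.J6H37.PU.Stm

/-!
# A valid preemptive schedule gives an integral solution of the linear program
-/

set_option autoImplicit false

namespace Pool.Agent.J6H37.PU

open Finset Pool.Agent.NPC MeasureTheory

namespace Fwd

/-- the amount of the piece `c` in the time interval from `α` to `β` -/
noncomputable def ov (S : Schedule) (α β : ℝ) (c : Fin S.N) : ℝ :=
  volume.real (Set.Ico (S.start c) (S.stop c) ∩ Set.Ico α β)

theorem ov_nonneg (S : Schedule) (α β : ℝ) (c : Fin S.N) : 0 ≤ ov S α β c := measureReal_nonneg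

theorem fin_ne (u v α β : ℝ) : volume (Set.Ico u v ∩ Set.Ico α β) ≠ ⊤ :=
  ne_top_of_le_ne_top (by rw [Real.volume_Ico]; exact ENNReal.ofReal_ne_top)
    (measure_mono Set.inter_subset_left)

theorem pack {S : Schedule} {α β : ℝ} (h : α ≤ β) (A : Finset (Fin S.N))
    (hA : ∀ c ∈ A, ∀ c' ∈ A, c ≠ c' → S.stop c ≤ S.start c' ∨ S.stop c' ≤ S.start c) :
    ∑ c ∈ A, ov S α β c ≤ β - α := by
  unfold ov
  rw [← measureReal_biUnion_finset (μ := volume)
    (f := fun c => Set.Ico (S.start c) (S.stop c) ∩ Set.Ico α β) ?_
    (fun c _ => measurableSet_Ico.inter measurableSet_Ico) (fun c _ => fin_ne _ _ _ _)]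
  · calc volume.real (⋃ c ∈ A, Set.Ico (S.start c) (S.stop c) ∩ Set.Ico α β)
        ≤ volume.real (Set.Ico α β) := by
          refine measureReal_mono (Set.iUnion₂_subset fun c _ => Set.inter_subset_right) ?_
          rw [Real.volume_Ico]
          exact ENNReal.ofReal_ne_top
      _ = β - α := Real.volume_real_Ico_of_le h
  · intro c hc c' hc' hcc
    have h1 : Disjoint (Set.Ico (S.start c) (S.stop c)) (Set.Ico (S.start c') (S.stop c')) := by
      rw [Set.Ico_disjoint_Ico]
      rcases hA c hc c' hc' hcc with h2 | h2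
      · exact (min_le_left _ _).trans (h2.trans (le_max_right _ _))
      · exact (min_le_right _ _).trans (h2.trans (le_max_left _ _))
    exact h1.mono Set.inter_subset_left Set.inter_subset_left

theorem cov {S : Schedule} {n T : ℕ} {r d a b : ℕ → ℕ} (hI : Ivl n T r d a b) {j : ℕ} (hj : j < n)
    {c : Fin S.N} (h0 : S.start c ≤ S.stop c) (h1 : (r j : ℝ) ≤ S.start c) (h2 : S.stop c ≤ d j) :
    ∑ t ∈ range T, (if r j ≤ a t ∧ b t ≤ d j then ov S (a t) (b t) c else 0) =
      S.stop c - S.start c := by
  rw [← Finset.sum_filter]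
  unfold ov
  rw [← measureReal_biUnion_finset (μ := volume)
    (f := fun t => Set.Ico (S.start c) (S.stop c) ∩ Set.Ico (a t : ℝ) (b t)) ?_
    (fun c _ => measurableSet_Ico.inter measurableSet_Ico) (fun c _ => fin_ne _ _ _ _)]
  · have h3 : (⋃ t ∈ (range T).filter (fun t => r j ≤ a t ∧ b t ≤ d j),
        Set.Ico (S.start c) (S.stop c) ∩ Set.Ico (a t : ℝ) (b t)) =
        Set.Ico (S.start c) (S.stop c) := by
      apply Set.Subset.antisymm (Set.iUnion₂_subset fun t _ => Set.inter_subset_left)
      intro τ hτ
      obtain ⟨t, ht, ht1, ht2, ht3, ht4⟩ := hI.cover j hj τ (h1.trans hτ.1) (hτ.2.trans_le h2)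
      exact Set.mem_iUnion₂.2 ⟨t, Finset.mem_filter.2 ⟨Finset.mem_range.2 ht, ht1, ht2⟩,
        hτ, ht3, ht4⟩
    rw [h3]
    exact Real.volume_real_Ico_of_le h0
  · intro s hs t ht hst
    have hs' := Finset.mem_range.1 (Finset.mem_filter.1 hs).1
    have ht' := Finset.mem_range.1 (Finset.mem_filter.1 ht).1
    have h1 : Disjoint (Set.Ico (a s : ℝ) (b s)) (Set.Ico (a t : ℝ) (b t)) := by
      rw [Set.Ico_disjoint_Ico]
      rcases hI.disj s hs' t ht' hst with h2 | h2
      · have h2' : (b s : ℝ) ≤ a t := by exact_mod_cast h2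
        exact (min_le_left _ _).trans (h2'.trans (le_max_right _ _))
      · have h2' : (b t : ℝ) ≤ a s := by exact_mod_cast h2
        exact (min_le_right _ _).trans (h2'.trans (le_max_left _ _))
    exact h1.mono Set.inter_subset_right Set.inter_subset_right

end Fwd

open Fwd

/-- **PU-FWD** -/
theorem fwd : S_FWD := by
  classical
  intro m n T r p d w a b S hI hS
  have hab : ∀ t < T, (a t : ℝ) ≤ b t := fun t ht => by exact_mod_cast hI.le t ht
  refine ⟨fun j => if S.Late d j then 0 else 1,
    fun j t => if S.Late d j then 0 else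
      if r j ≤ a t ∧ b t ≤ d j then ∑ c with S.job c = j, ov S (a t) (b t) c else 0, ?_, ?_, ?_⟩
  · have hx0 : ∀ j t, 0 ≤ (if S.Late d j then 0 else
        if r j ≤ a t ∧ b t ≤ d j then ∑ c with S.job c = j, ov S (a t) (b t) c else 0 : ℝ) := by
      intro j t
      split_ifs
      · exact le_rfl
      · exact Finset.sum_nonneg fun c _ => ov_nonneg _ _ _ _
      · exact le_rfl
    have hxs : ∀ j t, (if S.Late d j then 0 else
        if r j ≤ a t ∧ b t ≤ d j then ∑ c with S.job c = j, ov S (a t) (b t) c else 0 : ℝ) ≤
          ∑ c with S.job c = j, ov S (a t) (b t) c := by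
      intro j t
      have h1 : 0 ≤ ∑ c with S.job c = j, ov S (a t) (b t) c :=
        Finset.sum_nonneg fun c _ => ov_nonneg _ _ _ _
      split_ifs
      · exact h1
      · exact le_rfl
      · exact h1
    refine ⟨?_, ?_, fun j _ t _ => hx0 j t, ?_, ?_, ?_, ?_⟩
    · intro j _
      split_ifs <;> norm_num
    · intro j _
      split_ifs <;> norm_num
    · intro j _ t ht
      by_cases hL : S.Late d j
      · rw [if_pos hL, if_pos hL, mul_zero]
      · have h1 := hxs j t
        rw [if_neg hL] at h1
        rw [if_neg hL, if_neg hL, mul_one]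
        refine h1.trans (pack (hab t ht) _ ?_)
        intro c hc c' hc' hcc
        exact hS.disjoint c c' hcc (Or.inl ((Finset.mem_filter.1 hc).2.trans
          (Finset.mem_filter.1 hc').2.symm))
    · intro j _ t _ hw
      rw [if_neg hw, ite_self]
    · intro j hj
      by_cases hL : S.Late d j
      · simp [hL]
      · simp only [if_neg hL, mul_one]
        have h1 : ∀ t, (if r j ≤ a t ∧ b t ≤ d j then ∑ c with S.job c = j, ov S (a t) (b t) c
            else 0) = ∑ c with S.job c = j,
              (if r j ≤ a t ∧ b t ≤ d j then ov S (a t) (b t) c else 0) := by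
          intro t
          split_ifs
          · rfl
          · simp
        simp_rw [h1]
        rw [Finset.sum_comm, ← hS.total j hj]
        refine Finset.sum_congr rfl fun c hc => ?_
        have hcj := (Finset.mem_filter.1 hc).2
        refine cov hI hj (hS.pos c).le ?_ ?_
        · rw [← hcj]; exact hS.release c
        · by_contra h2
          exact hL ⟨c, hcj, not_le.1 h2⟩
    · intro t ht
      calc ∑ j ∈ range n, (if S.Late d j then 0 else
            if r j ≤ a t ∧ b t ≤ d j then ∑ c with S.job c = j, ov S (a t) (b t) c else 0 : ℝ)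
          ≤ ∑ j ∈ range n, ∑ c with S.job c = j, ov S (a t) (b t) c :=
            Finset.sum_le_sum fun j _ => hxs j t
        _ = ∑ c : Fin S.N, ov S (a t) (b t) c := by
            rw [← Finset.sum_fiberwise_of_maps_to (s := Finset.univ) (t := range n)
              (g := fun c => S.job c) (fun c _ => Finset.mem_range.2 (hS.job_lt c))]
        _ = ∑ i ∈ range m, ∑ c with S.mach c = i, ov S (a t) (b t) c := by
            rw [← Finset.sum_fiberwise_of_maps_to (s := Finset.univ) (t := range m)
              (g := fun c => S.mach c) (fun c _ => Finset.mem_range.2 (hS.mach_lt c))]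
        _ ≤ ∑ i ∈ range m, ((b t : ℝ) - a t) := by
            refine Finset.sum_le_sum fun i _ => pack (hab t ht) _ ?_
            intro c hc c' hc' hcc
            exact hS.disjoint c c' hcc (Or.inr ((Finset.mem_filter.1 hc).2.trans
              (Finset.mem_filter.1 hc').2.symm))
        _ = m * (b t - a t : ℝ) := by rw [Finset.sum_const, Finset.card_range, nsmul_eq_mul]
  · intro j _
    simp only
    split_ifs
    · exact Or.inl rfl
    · exact Or.inr rfl
  · unfold Schedule.lateWeight
    push_cast
    refine Finset.sum_le_sum fun j _ => ?_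
    split_ifs <;> simp

end Pool.Agent.J6H37.PU
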