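import Pool.Agent.J6H37.PU.RedDefs

/-!
# The time intervals of an instance
-/

set_option autoImplicit false

namespace Pool.Agent.J6H37.PU

open Finset Pool.Agent.NPC

theorem le_foldr_max {L : List ℕ} {x : ℕ} (h : x ∈ L) : x ≤ L.foldr max 0 := by
  induction L with
  | nil => simp at h
  | cons b L ih =>
    rcases List.mem_cons.1 h with h | h
    · subst h
      exact le_max_left _ _
    · exact (ih h).trans (le_max_right _ _)

theorem foldr_max_le {L : List ℕ} {c : ℕ} (h : ∀ x ∈ L, x ≤ c) : L.foldr max 0 ≤ c := by
  induction L with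
  | nil => exact Nat.zero_le _
  | cons b L ih =>
    exact max_le (h b (by simp)) (ih fun x hx => h x (List.mem_cons_of_mem _ hx))

theorem lexlt_iff (l : List Job) (s t : ℕ) :
    lexlt l s t = true ↔ pt l s < pt l t ∨ (pt l s = pt l t ∧ s < t) := by
  simp [lexlt]

theorem le_prev {l : List Job} {s t : ℕ} (hs : s < 2 * l.length) (h : lexlt l s t = true) :
    pt l s ≤ prev l t := by
  apply le_foldr_max
  rw [List.mem_map]
  exact ⟨s, List.mem_range.2 hs, by rw [if_pos h]⟩

theorem prev_le {l : List Job} {t c : ℕ}
    (h : ∀ s < 2 * l.length, lexlt l s t = true → pt l s ≤ c) : prev l t ≤ c := by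
  apply foldr_max_le
  intro x hx
  obtain ⟨s, hs, rfl⟩ := List.mem_map.1 hx
  split_ifs with h1
  · exact h s (List.mem_range.1 hs) h1
  · exact Nat.zero_le _

theorem prev_le_pt (l : List Job) (t : ℕ) : prev l t ≤ pt l t :=
  prev_le fun s _ h => by
    rcases (lexlt_iff l s t).1 h with h | h
    · exact h.le
    · exact h.1.le

theorem pt_left {l : List Job} {j : ℕ} (hj : j < l.length) : pt l j = (jb l j).1.1 := by
  rw [pt, if_pos hj]

theorem pt_right (l : List Job) (j : ℕ) : pt l (l.length + j) = (jb l j).2 := by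
  rw [pt, if_neg (by omega), Nat.add_sub_cancel_left]

theorem ivl (l : List Job) : Ivl l.length (2 * l.length) (fun j => (jb l j).1.1)
    (fun j => (jb l j).2) (prev l) (pt l) := by
  refine ⟨fun t _ => prev_le_pt l t, ?_, ?_⟩
  · intro s hs t ht hst
    have h : lexlt l s t = true ∨ lexlt l t s = true := by
      rw [lexlt_iff, lexlt_iff]
      omega
    rcases h with h | h
    · exact Or.inl (le_prev hs h)
    · exact Or.inr (le_prev ht h)
  · intro j hj τ h1 h2
    have h0 : (0 : ℝ) ≤ τ := (Nat.cast_nonneg _).trans h1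
    set F := (range (2 * l.length)).filter fun s => τ < (pt l s : ℝ) with hF
    have hne : F.Nonempty := ⟨l.length + j, by
      rw [hF, mem_filter, mem_range, pt_right]
      exact ⟨by omega, h2⟩⟩
    obtain ⟨t, ht, hmin⟩ := Finset.exists_min_image F (fun s => toLex (pt l s, s)) hne
    have ht' := ht
    rw [hF, mem_filter, mem_range] at ht'
    have key : ∀ s < 2 * l.length, lexlt l s t = true → (pt l s : ℝ) ≤ τ := by
      intro s hs hst
      by_contra hc
      rw [not_le] at hc
      have h3 := hmin s (by rw [hF, mem_filter, mem_range]; exact ⟨hs, hc⟩)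
      rw [Prod.Lex.toLex_le_toLex] at h3
      rw [lexlt_iff] at hst
      simp only at h3
      omega
    refine ⟨t, ht'.1, ?_, ?_, ?_, ht'.2⟩
    · have h3 : pt l j = (jb l j).1.1 := pt_left hj
      rw [← h3]
      apply le_prev (by omega)
      rw [lexlt_iff]
      left
      have h4 : (pt l j : ℝ) < pt l t := by
        rw [h3]
        exact h1.trans_lt ht'.2
      exact_mod_cast h4
    · have h3 := hmin (l.length + j) (by
        rw [hF, mem_filter, mem_range, pt_right]
        exact ⟨by omega, h2⟩)
      rw [Prod.Lex.toLex_le_toLex, pt_right] at h3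
      simp only at h3
      omega
    · have h3 : prev l t ≤ ⌊τ⌋₊ := prev_le fun s hs hst => Nat.le_floor (key s hs hst)
      exact (Nat.cast_le.2 h3).trans (Nat.floor_le h0)

end Pool.Agent.J6H37.PU
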