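import Pool.Agent.J6H37.PU.Stm
import Pool.Agent.H671R2.PolyAuto

/-!
# The mixed integer linear program is computable in polynomial time
-/

set_option autoImplicit false

namespace Pool.Agent.J6H37.PU

open Pool.Agent.NPC

namespace PolyRed

variable {α : Type} [TEnc α]

/-- the difference of two natural numbers as an integer -/
theorem p_intSub {m n : α → ℕ} (hm : Poly m) (hn : Poly n) :
    Poly (fun a => ((m a : ℤ) - (n a : ℤ))) := by
  refine Poly.of_toT ((Poly.toT' (Poly.pair (Poly.decide_lt hm hn)
    (Poly.add (Poly.sub hm hn) (Poly.sub hn hm)))).congr fun a => ?_)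
  change toT (decide (m a < n a), (m a - n a + (n a - m a))) =
    toT (decide ((m a : ℤ) - (n a : ℤ) < 0), ((m a : ℤ) - (n a : ℤ)).natAbs)
  congr 2
  · rw [decide_eq_decide]
    omega
  · omega

theorem p_jb {l : α → List Job} {j : α → ℕ} (hl : Poly l) (hj : Poly j) :
    Poly (fun a => jb (l a) (j a)) := by
  unfold jb
  exact Poly.getD hl hj (NPC.Poly.const _)

attribute [local fun_prop] p_jb

theorem p_pt {l : α → List Job} {t : α → ℕ} (hl : Poly l) (ht : Poly t) :
    Poly (fun a => pt (l a) (t a)) := by
  unfold pt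
  fun_prop

attribute [local fun_prop] p_pt

theorem p_lexlt {l : α → List Job} {s t : α → ℕ} (hl : Poly l) (hs : Poly s) (ht : Poly t) :
    Poly (fun a => lexlt (l a) (s a) (t a)) := by
  unfold lexlt
  fun_prop

attribute [local fun_prop] p_lexlt

theorem p_r1 {l : α → List Job} (hl : Poly l) : Poly (fun a => List.range (l a).length) :=
  (UPoly.length hl).range

theorem p_r2 {l : α → List Job} (hl : Poly l) : Poly (fun a => List.range (2 * (l a).length)) :=
  (UPoly.mul (UPoly.const 2) (UPoly.length hl)).range

attribute [local fun_prop] p_r1 p_r2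

theorem sz_foldr_max (l : List ℕ) : sz (l.foldr max 0) ≤ sz l := by
  induction l with
  | nil => exact le_rfl
  | cons a l ih =>
    rw [List.foldr_cons, sz_list_cons]
    rcases le_total a (l.foldr max 0) with h | h
    · rw [max_eq_right h]
      omega
    · rw [max_eq_left h]
      omega

theorem p_foldr_max {l : α → List ℕ} (hl : Poly l) : Poly (fun a => (l a).foldr max 0) := by
  obtain ⟨r, hr⟩ := hl.sz_le
  refine Poly.foldr (s := fun _ => 0) (F := fun _ x s => max x s) hl (NPC.Poly.const 0)
    (Poly.max (Poly.fst (Poly.snd Poly.id)) (Poly.snd (Poly.snd Poly.id))) r ?_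
  intro a k hk
  exact (sz_foldr_max _).trans ((Poly.sz_drop_le _ _).trans (hr a))

attribute [local fun_prop] p_foldr_max

theorem p_prev {l : α → List Job} {t : α → ℕ} (hl : Poly l) (ht : Poly t) :
    Poly (fun a => prev (l a) (t a)) := by
  unfold prev
  fun_prop

attribute [local fun_prop] p_prev

theorem p_len {l : α → List Job} {t : α → ℕ} (hl : Poly l) (ht : Poly t) :
    Poly (fun a => len (l a) (t a)) := by
  unfold len
  fun_prop

theorem p_ok {l : α → List Job} {j t : α → ℕ} (hl : Poly l) (hj : Poly j) (ht : Poly t) :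
    Poly (fun a => ok (l a) (j a) (t a)) := by
  unfold ok
  fun_prop

attribute [local fun_prop] p_len p_ok

theorem p_cf {l : α → List Job} {j t : α → ℕ} (hl : Poly l) (hj : Poly j) (ht : Poly t) :
    Poly (fun a => cf (l a) (j a) (t a)) := by
  unfold cf
  fun_prop

theorem p_vr {l : α → List Job} {j c : α → ℕ} (hl : Poly l) (hj : Poly j) (hc : Poly c) :
    Poly (fun a => vr (l a) (j a) (c a)) := by
  unfold vr
  fun_prop

theorem p_neg {k : α → ℕ} (hk : Poly k) : Poly (fun a => neg (k a)) := by
  unfold neg
  exact p_intSub (NPC.Poly.const 0) hk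

attribute [local fun_prop] p_cf p_vr p_neg

theorem p_rows1 {l : α → List Job} {j : α → ℕ} (hl : Poly l) (hj : Poly j) :
    Poly (fun a => rows1 (l a) (j a)) := by
  unfold rows1
  fun_prop

theorem p_rows2 {l : α → List Job} {j t : α → ℕ} (hl : Poly l) (hj : Poly j) (ht : Poly t) :
    Poly (fun a => rows2 (l a) (j a) (t a)) := by
  unfold rows2
  fun_prop

theorem p_rows3 {l : α → List Job} {j : α → ℕ} (hl : Poly l) (hj : Poly j) :
    Poly (fun a => rows3 (l a) (j a)) := by
  unfold rows3
  fun_prop

theorem p_rows4 {m : α → ℕ} {l : α → List Job} {t : α → ℕ} (hm : Poly m) (hl : Poly l)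
    (ht : Poly t) : Poly (fun a => rows4 (m a) (l a) (t a)) := by
  unfold rows4
  fun_prop

theorem p_same {l : α → List Job} {i : α → ℕ} (hl : Poly l) (hi : Poly i) :
    Poly (fun a => same (l a) (i a)) := by
  unfold same
  fun_prop

attribute [local fun_prop] p_rows1 p_rows2 p_rows3 p_rows4 p_same

theorem p_rows5 {l : α → List Job} {i : α → ℕ} (hl : Poly l) (hi : Poly i) :
    Poly (fun a => rows5 (l a) (i a)) := by
  unfold rows5
  fun_prop

theorem p_wsum {l : α → List Job} (hl : Poly l) : Poly (fun a => wsum (l a)) := by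
  unfold wsum
  fun_prop

attribute [local fun_prop] p_rows5 p_wsum

theorem p_row6 {l : α → List Job} {B : α → ℕ} (hl : Poly l) (hB : Poly B) :
    Poly (fun a => row6 (l a) (B a)) := by
  unfold row6
  refine Poly.pair ?_ (p_intSub hB (p_wsum hl))
  fun_prop

theorem p_firsts {l : α → List Job} (hl : Poly l) : Poly (fun a => firsts (l a)) := by
  unfold firsts
  fun_prop

theorem p_m1 {m : α → ℕ} (hm : Poly m) : Poly (fun a => ((m a : ℕ) : ℤ) - ((1 : ℕ) : ℤ)) :=
  p_intSub hm (NPC.Poly.const 1)

attribute [local fun_prop] p_row6 p_firsts p_m1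

theorem p_red : Poly red := by
  unfold red
  fun_prop

theorem p_emb : Poly (fun I : (ℕ × List (ℕ × ℕ)) × ℕ =>
    ((I.1.1, I.1.2.map fun j => ((0, j.1, 1), j.2)), I.2)) := by
  fun_prop

end PolyRed

/-- The reduction to mixed integer linear programming is computable in polynomial time. -/
theorem poly : S_POLY := PolyRed.p_red

/-- The embedding of the unweighted problem without release dates. -/
theorem poly_embed : Poly (fun I : (ℕ × List (ℕ × ℕ)) × ℕ =>
    ((I.1.1, I.1.2.map fun j => ((0, j.1, 1), j.2)), I.2)) := PolyRed.p_emb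

end Pool.Agent.J6H37.PU
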