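import Pool.Agent.J6H37.PU.RedDefs
import Pool.Agent.H671R2.PolyAuto

/-!
# Statements of the steps
-/

set_option autoImplicit false

namespace Pool.Agent.J6H37.PU

open Finset Pool.Agent.NPC

/-- PU-FWD: a schedule gives an integral solution of the linear program. -/
def S_FWD : Prop := ∀ (m n T : ℕ) (r p d w a b : ℕ → ℕ) (S : Schedule), Ivl n T r d a b →
  S.Valid m n r p → ∃ (y : ℕ → ℝ) (x : ℕ → ℕ → ℝ), LP m n T r p d a b y x ∧
    (∀ j < n, y j = 0 ∨ y j = 1) ∧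
    ∑ j ∈ range n, (w j : ℝ) * (1 - y j) ≤ (S.lateWeight n d w : ℝ)

/-- PU-EXCH: if the sum of `y` over each type is an integer, there is an integral solution with the
same value. -/
def S_EXCH : Prop := ∀ (m n T : ℕ) (r p d w a b : ℕ → ℕ) (ty : ℕ → ℕ × ℕ × ℕ)
    (y : ℕ → ℝ) (x : ℕ → ℕ → ℝ),
  (∀ j < n, ty j = (r j, p j, w j)) → LP m n T r p d a b y x →
  (∀ i < n, ∃ k : ℤ, ∑ j ∈ (range n).filter (fun j => ty j = ty i), y j = k) →
  ∃ (y' : ℕ → ℝ) (x' : ℕ → ℕ → ℝ), LP m n T r p d a b y' x' ∧ (∀ j < n, y' j = 0 ∨ y' j = 1) ∧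
    ∑ j ∈ range n, (w j : ℝ) * (1 - y' j) = ∑ j ∈ range n, (w j : ℝ) * (1 - y j)

/-- PU-BWD: an integral solution gives a schedule (McNaughton's wrap-around rule in each interval). -/
def S_BWD : Prop := ∀ (m n T : ℕ) (r p d w a b : ℕ → ℕ) (y : ℕ → ℝ) (x : ℕ → ℕ → ℝ), 1 ≤ m →
  Ivl n T r d a b → LP m n T r p d a b y x → (∀ j < n, y j = 0 ∨ y j = 1) →
  ∃ S : Schedule, S.Valid m n r p ∧
    (S.lateWeight n d w : ℝ) ≤ ∑ j ∈ range n, (w j : ℝ) * (1 - y j)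

/-- PU-POLY: the mixed integer linear program is computable in polynomial time. -/
def S_POLY : Prop := Poly red

end Pool.Agent.J6H37.PU
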