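import Pool.Agent.J6H37.PU.Rows
import Pool.Agent.J6H37.PU.Stm
import Pool.Agent.H633R2.Fpt

/-!
# The reduction to mixed integer linear programming
-/

set_option autoImplicit false

namespace Pool.Agent.J6H37.PU

open Finset Pool.Agent.NPC Pool.Agent.H633R2

theorem red_iff (hF : S_FWD) (hE : S_EXCH) (hB : S_BWD) (I : (ℕ × List Job) × ℕ) :
    WTardy I ↔ Milp (red I) := by
  obtain ⟨⟨m, l⟩, B⟩ := I
  rw [milp_iff]
  constructor
  · rintro ⟨hm, S, hS, hw⟩
    obtain ⟨y, x, h1, h2, h3⟩ := hF m l.length (2 * l.length) _ _ _ (fun j => (jb l j).1.2.2)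
      _ _ S (ivl l) hS
    refine ⟨_, y, x, sat_of_lp hm h1 (h3.trans (by exact_mod_cast hw)), ?_⟩
    intro i _
    refine ⟨∑ j ∈ (range l.length).filter (fun j => (jb l j).1 = (jb l i).1),
      if y j = 1 then 1 else 0, ?_⟩
    rw [Int.cast_sum]
    refine sum_congr rfl fun j hj => ?_
    rcases h2 j (mem_range.1 (mem_filter.1 hj).1) with h | h <;> simp [h]
  · rintro ⟨z, y, x, h1, h2⟩
    have hLP := lp_of_sat h1
    obtain ⟨y', x', h3, h4, h5⟩ := hE m l.length (2 * l.length) _ _ _
      (fun j => (jb l j).1.2.2) _ _ (fun j => (jb l j).1) y x (fun j _ => rfl) hLP (by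
        intro i hi
        have hex : ∃ k, k < l.length ∧ (jb l k).1 = (jb l i).1 := ⟨i, hi, rfl⟩
        classical
        obtain ⟨hk1, hk2⟩ := Nat.find_spec hex
        have hk3 : Nat.find hex ∈ firsts l := by
          refine List.mem_filter.2 ⟨List.mem_range.2 hk1, ?_⟩
          rw [List.all_eq_true]
          intro j hj
          have h6 := fun h7 => Nat.find_min (m := j) hex h7
          simp only [Bool.not_eq_true', Bool.and_eq_false_iff, decide_eq_false_iff_not]
          by_cases h7 : j < Nat.find hex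
          · right
            intro h8
            exact h6 h7 ⟨List.mem_range.1 hj, h8.trans hk2⟩
          · exact Or.inl h7
        obtain ⟨k, hk⟩ := h2 _ hk3
        refine ⟨k, ?_⟩
        rw [← hk, ← h1.sum _ hk1, hk2])
    obtain ⟨S, hS, hw⟩ := hB m l.length (2 * l.length) _ _ _ (fun j => (jb l j).1.2.2) _ _ y' x'
      h1.m1 (ivl l) h3 h4
    refine ⟨h1.m1, S, hS, ?_⟩
    have h6 := hw.trans (h5.le.trans h1.wt)
    exact_mod_cast h6

theorem firsts_length (l : List Job) : (firsts l).length ≤ (l.map Prod.fst).toFinset.card := by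
  have hnd : (firsts l).Nodup := List.nodup_range.filter _
  rw [← List.toFinset_card_of_nodup hnd]
  refine Finset.card_le_card_of_injOn (fun j => (jb l j).1) ?_ ?_
  · intro j hj
    have hj' : j ∈ firsts l := List.mem_toFinset.1 hj
    have h1 : j < l.length := List.mem_range.1 (List.mem_filter.1 hj').1
    rw [Finset.mem_coe, List.mem_toFinset, List.mem_map]
    refine ⟨jb l j, ?_, rfl⟩
    rw [jb, List.getD_eq_getElem _ _ h1]
    exact List.getElem_mem h1
  · intro i hi j hj hij
    have hi' : i ∈ firsts l := List.mem_toFinset.1 hi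
    have hj' : j ∈ firsts l := List.mem_toFinset.1 hj
    have hi1 := List.mem_filter.1 hi'
    have hj1 := List.mem_filter.1 hj'
    rw [List.all_eq_true] at hi1 hj1
    have h1 := hi1.2 j hj1.1
    have h2 := hj1.2 i hi1.1
    simp only [Bool.not_eq_true', Bool.and_eq_false_iff, decide_eq_false_iff_not] at h1 h2
    simp only at hij
    rcases lt_trichotomy i j with h | h | h
    · rcases h2 with h2 | h2
      · exact absurd h h2
      · exact absurd hij h2
    · exact h
    · rcases h1 with h1 | h1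
      · exact absurd h h1
      · exact absurd hij.symm h1

theorem ints_le (I : (ℕ × List Job) × ℕ) : ints (red I) ≤ types I := by
  unfold ints red types
  simp only [List.length_map]
  exact firsts_length _

/-- the jobs without release dates and weights -/
def embed (I : (ℕ × List (ℕ × ℕ)) × ℕ) : (ℕ × List Job) × ℕ :=
  ((I.1.1, I.1.2.map fun j => ((0, j.1, 1), j.2)), I.2)

theorem Schedule.Valid.congr {S : Schedule} {m n : ℕ} {r p r' p' : ℕ → ℕ} (h : S.Valid m n r p)
    (hr : ∀ j < n, r j = r' j) (hp : ∀ j < n, p j = p' j) : S.Valid m n r' p' :=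
  ⟨h.job_lt, h.mach_lt, h.pos, fun a => by
    rw [← hr _ (h.job_lt a)]; exact h.release a, h.disjoint, fun j hj => by
    rw [h.total j hj, hp j hj]⟩

theorem Schedule.lateWeight_congr {S : Schedule} {n : ℕ} {d w d' w' : ℕ → ℕ}
    (hd : ∀ j < n, d j = d' j) (hw : ∀ j < n, w j = w' j) :
    S.lateWeight n d w = S.lateWeight n d' w' := by
  unfold Schedule.lateWeight
  refine sum_congr rfl fun j hj => ?_
  have h1 := hd j (mem_range.1 hj)
  have h2 := hw j (mem_range.1 hj)
  unfold Schedule.Late
  rw [h1, h2]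

theorem jb_embed (l : List (ℕ × ℕ)) (j : ℕ) (hj : j < l.length) :
    jb (l.map fun j => ((0, j.1, 1), j.2)) j = ((0, (pj l j).1, 1), (pj l j).2) := by
  rw [jb, pj, List.getD_eq_getElem _ _ (by rw [List.length_map]; exact hj), List.getElem_map,
    List.getD_eq_getElem _ _ hj]

theorem embed_iff (I : (ℕ × List (ℕ × ℕ)) × ℕ) : Tardy I ↔ WTardy (embed I) := by
  obtain ⟨⟨m, l⟩, B⟩ := I
  unfold Tardy WTardy embed
  simp only [List.length_map]
  refine and_congr Iff.rfl (exists_congr fun S => ?_)
  have e := jb_embed l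
  constructor
  · rintro ⟨h1, h2⟩
    refine ⟨h1.congr (fun j hj => by rw [e j hj]) (fun j hj => by rw [e j hj]), ?_⟩
    rw [← S.lateWeight_congr (d := fun j => (pj l j).2) (w := fun _ => 1)
      (fun j hj => by rw [e j hj]) (fun j hj => by rw [e j hj])]
    exact h2
  · rintro ⟨h1, h2⟩
    refine ⟨h1.congr (fun j hj => by rw [e j hj]) (fun j hj => by rw [e j hj]), ?_⟩
    rw [S.lateWeight_congr (d' := fun j => (jb (l.map fun j => ((0, j.1, 1), j.2)) j).2)
      (w' := fun j => (jb (l.map fun j => ((0, j.1, 1), j.2)) j).1.2.2)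
      (fun j hj => by rw [e j hj]) (fun j hj => by rw [e j hj])]
    exact h2

theorem embed_types (I : (ℕ × List (ℕ × ℕ)) × ℕ) : types (embed I) ≤ pbar I := by
  unfold types pbar embed
  simp only [List.map_map]
  have : (List.map (Prod.fst ∘ fun j : ℕ × ℕ => ((0, j.1, 1), j.2)) I.1.2).toFinset =
      (I.1.2.map Prod.fst).toFinset.image (fun p => ((0 : ℕ), p, (1 : ℕ))) := by
    ext t
    simp only [List.mem_toFinset, List.mem_map, Finset.mem_image, Function.comp]
    constructor
    · rintro ⟨j, hj, rfl⟩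
      exact ⟨j.1, ⟨j, hj, rfl⟩, rfl⟩
    · rintro ⟨_, ⟨j, hj, rfl⟩, rfl⟩
      exact ⟨j, hj, rfl⟩
  rw [this]
  exact Finset.card_image_le

end Pool.Agent.J6H37.PU
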