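import Pool.Agent.J6H37.PU.Defs

/-!
# The mixed integer linear program of an instance
-/

set_option autoImplicit false

namespace Pool.Agent.J6H37.PU

open Finset Pool.Agent.NPC

/-- The time points: release dates and due dates. -/
def pt (l : List Job) (t : ℕ) : ℕ :=
  if t < l.length then (jb l t).1.1 else (jb l (t - l.length)).2

/-- The lexicographic order of the time points. -/
def lexlt (l : List Job) (s t : ℕ) : Bool :=
  decide (pt l s < pt l t) || (decide (pt l s = pt l t) && decide (s < t))

/-- The time point before the point number `t`. -/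
def prev (l : List Job) (t : ℕ) : ℕ :=
  ((List.range (2 * l.length)).map fun s => if lexlt l s t = true then pt l s else 0).foldr max 0

/-- The length of the time interval number `t`. -/
def len (l : List Job) (t : ℕ) : ℕ := pt l t - prev l t

/-- The interval number `t` is in the window of the job `j`. -/
def ok (l : List Job) (j t : ℕ) : Bool :=
  decide ((jb l j).1.1 ≤ prev l t) && decide (pt l t ≤ (jb l j).2)

/-- The length of the interval number `t` if it is in the window of the job `j`, and `0` else. -/
def cf (l : List Job) (j t : ℕ) : ℕ := if ok l j t = true then len l t else 0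

/-- The number of the variable `z j` (for `c = 0`), `y j` (for `c = 1`), `x j t` (for `c = t + 2`). -/
def vr (l : List Job) (j c : ℕ) : ℕ := j * (2 * l.length + 2) + c

/-- minus a natural number -/
def neg (k : ℕ) : ℤ := ((0 : ℕ) : ℤ) - (k : ℤ)

/-- `0 ≤ y j ≤ 1` -/
def rows1 (l : List Job) (j : ℕ) : List (List (ℕ × ℤ) × ℤ) :=
  [([(vr l j 1, 1)], 1), ([(vr l j 1, -1)], 0)]

/-- `0 ≤ x j t ≤ (length) * y j` -/
def rows2 (l : List Job) (j t : ℕ) : List (List (ℕ × ℤ) × ℤ) :=
  [([(vr l j (t + 2), -1)], 0), ([(vr l j (t + 2), 1), (vr l j 1, neg (cf l j t))], 0)]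

/-- `∑ x j t = p j * y j` -/
def rows3 (l : List Job) (j : ℕ) : List (List (ℕ × ℤ) × ℤ) :=
  [((vr l j 1, neg (jb l j).1.2.1) ::
      (List.range (2 * l.length)).map fun t => (vr l j (t + 2), 1), 0),
    ((vr l j 1, ((jb l j).1.2.1 : ℤ)) ::
      (List.range (2 * l.length)).map fun t => (vr l j (t + 2), -1), 0)]

/-- the capacity of the machines in the interval number `t` -/
def rows4 (m : ℕ) (l : List Job) (t : ℕ) : List (List (ℕ × ℤ) × ℤ) :=
  [((List.range l.length).map fun j => (vr l j (t + 2), 1), ((m * len l t : ℕ) : ℤ))]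

/-- the jobs with the type of the job `i` -/
def same (l : List Job) (i : ℕ) : List ℕ :=
  (List.range l.length).filter fun j => decide ((jb l j).1 = (jb l i).1)

/-- the sum of `y j` over the jobs with the type of the job `i` is `z i` -/
def rows5 (l : List Job) (i : ℕ) : List (List (ℕ × ℤ) × ℤ) :=
  [((vr l i 0, -1) :: (same l i).map fun j => (vr l j 1, 1), 0),
    ((vr l i 0, 1) :: (same l i).map fun j => (vr l j 1, -1), 0)]

/-- the total weight -/
def wsum (l : List Job) : ℕ := ((List.range l.length).map fun j => (jb l j).1.2.2).sum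

/-- the accepted weight is large -/
def row6 (l : List Job) (B : ℕ) : List (ℕ × ℤ) × ℤ :=
  ((List.range l.length).map fun j => (vr l j 1, neg (jb l j).1.2.2), (B : ℤ) - (wsum l : ℤ))

/-- the first jobs of each type -/
def firsts (l : List Job) : List ℕ :=
  (List.range l.length).filter fun j => (List.range l.length).all fun i =>
    !(decide (i < j) && decide ((jb l i).1 = (jb l j).1))

/-- The mixed integer linear program. -/
def red (I : (ℕ × List Job) × ℕ) : List ℕ × List (List (ℕ × ℤ) × ℤ) :=
  ((firsts I.1.2).map fun j => vr I.1.2 j 0,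
    ([], (I.1.1 : ℤ) - ((1 : ℕ) : ℤ)) :: row6 I.1.2 I.2 ::
      (((List.range I.1.2.length).flatMap fun j =>
        rows1 I.1.2 j ++ (rows3 I.1.2 j ++ rows5 I.1.2 j)) ++
      (((List.range I.1.2.length).flatMap fun j => (List.range (2 * I.1.2.length)).flatMap fun t =>
        rows2 I.1.2 j t) ++
      ((List.range (2 * I.1.2.length)).flatMap fun t => rows4 I.1.1 I.1.2 t))))

end Pool.Agent.J6H37.PU
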