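import Pool.Agent.J6H37.PU.Ivl

/-!
# The rows of the mixed integer linear program
-/

set_option autoImplicit false

namespace Pool.Agent.J6H37.PU

open Finset Pool.Agent.NPC

/-- the value of a linear form -/
noncomputable def ev (v : ℕ → ℝ) (f : List (ℕ × ℤ)) : ℝ := (f.map fun t => (t.2 : ℝ) * v t.1).sum

theorem ev_nil (v : ℕ → ℝ) : ev v [] = 0 := rfl

theorem ev_cons (v : ℕ → ℝ) (t : ℕ × ℤ) (f : List (ℕ × ℤ)) :
    ev v (t :: f) = (t.2 : ℝ) * v t.1 + ev v f := rfl

theorem ev_map_range (v : ℕ → ℝ) (n : ℕ) (g : ℕ → ℕ × ℤ) :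
    ev v ((List.range n).map g) = ∑ j ∈ range n, ((g j).2 : ℝ) * v (g j).1 := by
  unfold ev
  rw [List.map_map]
  rfl

theorem ev_map_filter (v : ℕ → ℝ) (n : ℕ) (P : ℕ → Prop) [DecidablePred P] (g : ℕ → ℕ × ℤ) :
    ev v (((List.range n).filter fun j => decide (P j)).map g) =
      ∑ j ∈ (range n).filter P, ((g j).2 : ℝ) * v (g j).1 := by
  unfold ev
  rw [List.map_map]
  rfl

/-- the conditions on the values of the variables -/
structure Sat (m : ℕ) (l : List Job) (B : ℕ) (z y : ℕ → ℝ) (x : ℕ → ℕ → ℝ) : Prop where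
  m1 : 1 ≤ m
  y0 : ∀ j < l.length, 0 ≤ y j
  y1 : ∀ j < l.length, y j ≤ 1
  x0 : ∀ j < l.length, ∀ t < 2 * l.length, 0 ≤ x j t
  xL : ∀ j < l.length, ∀ t < 2 * l.length, x j t ≤ (cf l j t : ℝ) * y j
  tot : ∀ j < l.length, ∑ t ∈ range (2 * l.length), x j t = ((jb l j).1.2.1 : ℝ) * y j
  cap : ∀ t < 2 * l.length, ∑ j ∈ range l.length, x j t ≤ (m : ℝ) * (len l t : ℝ)
  sum : ∀ i < l.length, ∑ j ∈ (range l.length).filter (fun j => (jb l j).1 = (jb l i).1), y j = z i
  wt : ∑ j ∈ range l.length, ((jb l j).1.2.2 : ℝ) * (1 - y j) ≤ B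

theorem wsum_eq (l : List Job) : wsum l = ∑ j ∈ range l.length, (jb l j).1.2.2 := rfl

theorem sat_iff (m : ℕ) (l : List Job) (B : ℕ) (v : ℕ → ℝ) :
    (∀ row ∈ (red ((m, l), B)).2, ev v row.1 ≤ row.2) ↔
      Sat m l B (fun j => v (vr l j 0)) (fun j => v (vr l j 1)) (fun j t => v (vr l j (t + 2))) := by
  have e6 : ev v (row6 l B).1 ≤ (row6 l B).2 ↔
      ∑ j ∈ range l.length, ((jb l j).1.2.2 : ℝ) * (1 - v (vr l j 1)) ≤ B := by
    unfold row6
    simp only [ev_map_range, neg, wsum_eq]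
    push_cast
    simp only [mul_sub, mul_one, sum_sub_distrib, zero_sub, neg_mul, sum_neg_distrib]
    constructor <;> intro h <;> linarith
  have e1 : ∀ j, (∀ row ∈ rows1 l j, ev v row.1 ≤ row.2) ↔ v (vr l j 1) ≤ 1 ∧ 0 ≤ v (vr l j 1) := by
    intro j
    unfold rows1
    simp only [List.mem_cons, List.not_mem_nil, or_false, forall_eq_or_imp, forall_eq, ev_cons,
      ev_nil]
    push_cast
    constructor <;> rintro ⟨h1, h2⟩ <;> constructor <;> linarith
  have e2 : ∀ j t, (∀ row ∈ rows2 l j t, ev v row.1 ≤ row.2) ↔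
      0 ≤ v (vr l j (t + 2)) ∧ v (vr l j (t + 2)) ≤ (cf l j t : ℝ) * v (vr l j 1) := by
    intro j t
    unfold rows2
    simp only [List.mem_cons, List.not_mem_nil, or_false, forall_eq_or_imp, forall_eq, ev_cons,
      ev_nil, neg]
    push_cast
    constructor <;> rintro ⟨h1, h2⟩ <;> constructor <;> linarith
  have e3 : ∀ j, (∀ row ∈ rows3 l j, ev v row.1 ≤ row.2) ↔
      ∑ t ∈ range (2 * l.length), v (vr l j (t + 2)) = ((jb l j).1.2.1 : ℝ) * v (vr l j 1) := by
    intro j
    unfold rows3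
    simp only [List.mem_cons, List.not_mem_nil, or_false, forall_eq_or_imp, forall_eq, ev_cons,
      ev_map_range, neg]
    push_cast
    simp only [one_mul, neg_mul, sum_neg_distrib]
    constructor
    · rintro ⟨h1, h2⟩
      linarith
    · intro h
      constructor <;> linarith
  have e4 : ∀ t, (∀ row ∈ rows4 m l t, ev v row.1 ≤ row.2) ↔
      ∑ j ∈ range l.length, v (vr l j (t + 2)) ≤ (m : ℝ) * (len l t : ℝ) := by
    intro t
    unfold rows4
    simp only [List.mem_cons, List.not_mem_nil, or_false, forall_eq, ev_map_range]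
    push_cast
    simp only [one_mul]
  have e5 : ∀ i, (∀ row ∈ rows5 l i, ev v row.1 ≤ row.2) ↔
      ∑ j ∈ (range l.length).filter (fun j => (jb l j).1 = (jb l i).1), v (vr l j 1) =
        v (vr l i 0) := by
    intro i
    unfold rows5 same
    simp only [List.mem_cons, List.not_mem_nil, or_false, forall_eq_or_imp, forall_eq, ev_cons,
      ev_map_filter]
    push_cast
    simp only [one_mul, neg_mul, sum_neg_distrib]
    constructor
    · rintro ⟨h1, h2⟩
      linarith
    · intro h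
      constructor <;> linarith
  have e0 : ev v ([] : List (ℕ × ℤ)) ≤ (((m : ℤ) - ((1 : ℕ) : ℤ) : ℤ) : ℝ) ↔ 1 ≤ m := by
    rw [ev_nil]
    push_cast
    rw [sub_nonneg]
    exact Nat.one_le_cast
  have main : (∀ row ∈ (red ((m, l), B)).2, ev v row.1 ≤ row.2) ↔
      (1 ≤ m) ∧ (ev v (row6 l B).1 ≤ (row6 l B).2) ∧
      (∀ j < l.length, (∀ row ∈ rows1 l j, ev v row.1 ≤ row.2) ∧
        (∀ row ∈ rows3 l j, ev v row.1 ≤ row.2) ∧ (∀ row ∈ rows5 l j, ev v row.1 ≤ row.2)) ∧
      (∀ j < l.length, ∀ t < 2 * l.length, ∀ row ∈ rows2 l j t, ev v row.1 ≤ row.2) ∧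
      (∀ t < 2 * l.length, ∀ row ∈ rows4 m l t, ev v row.1 ≤ row.2) := by
    rw [← e0]
    unfold red
    simp only [List.forall_mem_cons, List.forall_mem_append]
    refine and_congr Iff.rfl (and_congr Iff.rfl (and_congr ?_ (and_congr ?_ ?_)))
    · constructor
      · intro h j hj
        have h1 := fun row hrow => h row (List.mem_flatMap.2 ⟨j, List.mem_range.2 hj, hrow⟩)
        refine ⟨fun row hr => h1 row ?_, fun row hr => h1 row ?_, fun row hr => h1 row ?_⟩
        · exact List.mem_append.2 (Or.inl hr)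
        · exact List.mem_append.2 (Or.inr (List.mem_append.2 (Or.inl hr)))
        · exact List.mem_append.2 (Or.inr (List.mem_append.2 (Or.inr hr)))
      · intro h row hrow
        obtain ⟨j, hj, hrow⟩ := List.mem_flatMap.1 hrow
        obtain ⟨h1, h2, h3⟩ := h j (List.mem_range.1 hj)
        rcases List.mem_append.1 hrow with hrow | hrow
        · exact h1 row hrow
        · rcases List.mem_append.1 hrow with hrow | hrow
          · exact h2 row hrow
          · exact h3 row hrow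
    · constructor
      · intro h j hj t ht row hrow
        exact h row (List.mem_flatMap.2 ⟨j, List.mem_range.2 hj,
          List.mem_flatMap.2 ⟨t, List.mem_range.2 ht, hrow⟩⟩)
      · intro h row hrow
        obtain ⟨j, hj, hrow⟩ := List.mem_flatMap.1 hrow
        obtain ⟨t, ht, hrow⟩ := List.mem_flatMap.1 hrow
        exact h j (List.mem_range.1 hj) t (List.mem_range.1 ht) row hrow
    · constructor
      · intro h t ht row hrow
        exact h row (List.mem_flatMap.2 ⟨t, List.mem_range.2 ht, hrow⟩)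
      · intro h row hrow
        obtain ⟨t, ht, hrow⟩ := List.mem_flatMap.1 hrow
        exact h t (List.mem_range.1 ht) row hrow
  rw [main]
  simp only [e6, e1, e2, e3, e4, e5]
  constructor
  · rintro ⟨h0, h6, h135, h2, h4⟩
    exact ⟨h0, fun j hj => (h135 j hj).1.2, fun j hj => (h135 j hj).1.1,
      fun j hj t ht => (h2 j hj t ht).1, fun j hj t ht => (h2 j hj t ht).2,
      fun j hj => (h135 j hj).2.1, h4, fun j hj => (h135 j hj).2.2, h6⟩
  · intro h
    exact ⟨h.m1, h.wt, fun j hj => ⟨⟨h.y1 j hj, h.y0 j hj⟩, h.tot j hj, h.sum j hj⟩,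
      fun j hj t ht => ⟨h.x0 j hj t ht, h.xL j hj t ht⟩, h.cap⟩

/-- the linear program in terms of `Sat` -/
theorem lp_of_sat {m : ℕ} {l : List Job} {B : ℕ} {z y : ℕ → ℝ} {x : ℕ → ℕ → ℝ}
    (h : Sat m l B z y x) : LP m l.length (2 * l.length) (fun j => (jb l j).1.1)
      (fun j => (jb l j).1.2.1) (fun j => (jb l j).2) (prev l) (pt l) y x := by
  have hlen : ∀ t, (len l t : ℝ) = (pt l t : ℝ) - prev l t := fun t => by
    rw [len, Nat.cast_sub (prev_le_pt l t)]
  refine ⟨h.y0, h.y1, h.x0, ?_, ?_, h.tot, ?_⟩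
  · intro j hj t ht
    refine (h.xL j hj t ht).trans (mul_le_mul_of_nonneg_right ?_ (h.y0 j hj))
    rw [← hlen, cf]
    split_ifs
    · exact le_rfl
    · exact_mod_cast Nat.zero_le _
  · intro j hj t ht hn
    have h1 := h.xL j hj t ht
    have h2 : cf l j t = 0 := by
      rw [cf, if_neg]
      simpa [ok] using hn
    rw [h2, Nat.cast_zero, zero_mul] at h1
    exact le_antisymm h1 (h.x0 j hj t ht)
  · intro t ht
    rw [← hlen]
    exact h.cap t ht

theorem sat_of_lp {m : ℕ} {l : List Job} {B : ℕ} {y : ℕ → ℝ} {x : ℕ → ℕ → ℝ} (hm : 1 ≤ m)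
    (h : LP m l.length (2 * l.length) (fun j => (jb l j).1.1)
      (fun j => (jb l j).1.2.1) (fun j => (jb l j).2) (prev l) (pt l) y x)
    (hw : ∑ j ∈ range l.length, ((jb l j).1.2.2 : ℝ) * (1 - y j) ≤ B) :
    Sat m l B (fun i => ∑ j ∈ (range l.length).filter (fun j => (jb l j).1 = (jb l i).1), y j)
      y x := by
  have hlen : ∀ t, (len l t : ℝ) = (pt l t : ℝ) - prev l t := fun t => by
    rw [len, Nat.cast_sub (prev_le_pt l t)]
  refine ⟨hm, h.y0, h.y1, h.x0, ?_, h.tot, ?_, fun _ _ => rfl, hw⟩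
  · intro j hj t ht
    rw [cf]
    split_ifs with h1
    · rw [hlen]
      exact h.xL j hj t ht
    · rw [h.xN j hj t ht (by simpa [ok] using h1)]
      simp
  · intro t ht
    rw [hlen]
    exact h.cap t ht

theorem milp_iff (I : (ℕ × List Job) × ℕ) : Milp (red I) ↔ ∃ (z y : ℕ → ℝ) (x : ℕ → ℕ → ℝ),
    Sat I.1.1 I.1.2 I.2 z y x ∧ ∀ i ∈ firsts I.1.2, ∃ k : ℤ, z i = k := by
  obtain ⟨⟨m, l⟩, B⟩ := I
  constructor
  · rintro ⟨v, h1, h2⟩
    refine ⟨_, _, _, (sat_iff m l B v).1 h2, fun i hi => h1 _ ?_⟩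
    exact List.mem_map.2 ⟨i, hi, rfl⟩
  · rintro ⟨z, y, x, h1, h2⟩
    let V : ℕ → ℕ → ℝ := fun j c => if c = 0 then z j else if c = 1 then y j else x j (c - 2)
    let v : ℕ → ℝ := fun i => V (i / (2 * l.length + 2)) (i % (2 * l.length + 2))
    have hv : ∀ j c, c < 2 * l.length + 2 → v (vr l j c) = V j c := by
      intro j c hc
      have e1 : vr l j c / (2 * l.length + 2) = j := by
        unfold vr
        rw [mul_comm, Nat.mul_add_div (by omega), Nat.div_eq_of_lt hc, add_zero]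
      have e2 : vr l j c % (2 * l.length + 2) = c := by
        unfold vr
        rw [mul_comm, Nat.mul_add_mod, Nat.mod_eq_of_lt hc]
      change V (vr l j c / (2 * l.length + 2)) (vr l j c % (2 * l.length + 2)) = V j c
      rw [e1, e2]
    have hz : ∀ j, v (vr l j 0) = z j := fun j => by
      rw [hv j 0 (by omega)]
      exact if_pos rfl
    have hy : ∀ j, v (vr l j 1) = y j := fun j => by
      have hc : 1 < 2 * l.length + 2 := by omega
      rw [hv j 1 hc]
      rfl
    have hx : ∀ j, ∀ t < 2 * l.length, v (vr l j (t + 2)) = x j t := fun j t ht => by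
      rw [hv j (t + 2) (by omega)]
      rfl
    refine ⟨v, ?_, ?_⟩
    · intro i hi
      obtain ⟨j, hj, rfl⟩ := List.mem_map.1 hi
      change ∃ k : ℤ, v (vr l j 0) = k
      rw [hz]
      exact h2 j hj
    · refine (sat_iff m l B v).2 ?_
      refine ⟨h1.m1, ?_, ?_, ?_, ?_, ?_, ?_, ?_, ?_⟩
      · intro j hj; simp only [hy]; exact h1.y0 j hj
      · intro j hj; simp only [hy]; exact h1.y1 j hj
      · intro j hj t ht; simp only [hx j t ht]; exact h1.x0 j hj t ht
      · intro j hj t ht; simp only [hx j t ht, hy]; exact h1.xL j hj t ht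
      · intro j hj
        simp only [hy]
        rw [← h1.tot j hj]
        exact sum_congr rfl fun t ht => hx j t (mem_range.1 ht)
      · intro t ht
        refine le_of_eq_of_le ?_ (h1.cap t ht)
        exact sum_congr rfl fun j _ => hx j t ht
      · intro i hi; simp only [hy, hz]; exact h1.sum i hi
      · simp only [hy]; exact h1.wt

end Pool.Agent.J6H37.PU
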